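import Mathlib

/-!
# A finite measure of the plane which gives opposite half planes the same mass

`conic_symm`: let `m` be a finite measure of the plane which does not charge the origin and the rays
from the origin.  If `m` gives the same mass to the two open half planes of every line through the
origin, then it gives the same mass to every measurable cone and to its reflection in the origin.
-/

open MeasureTheory Metric Set
open scoped ENNReal

namespace Pool.Agent.Run7.h658.PB

/-- the coordinate of `x` along the normal of the line with the angle `b` -/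
noncomputable def nrm (b : ℝ) (x : ℂ) : ℝ := Real.cos b * x.im - Real.sin b * x.re

theorem nrm_eq (b : ℝ) (x : ℂ) : nrm b x = ‖x‖ * Real.sin (Complex.arg x - b) := by
  rw [nrm, Real.sin_sub]
  have h1 : x.re = ‖x‖ * Real.cos (Complex.arg x) := (Complex.norm_mul_cos_arg x).symm
  have h2 : x.im = ‖x‖ * Real.sin (Complex.arg x) := (Complex.norm_mul_sin_arg x).symm
  conv_lhs => rw [h1, h2]
  ring

theorem continuous_nrm (b : ℝ) : Continuous (nrm b) := by
  unfold nrm; fun_prop

theorem nrm_pos_iff {b : ℝ} (hb : b ∈ Ioc (-Real.pi) 0) {x : ℂ} (hx : x ≠ 0) :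
    0 < nrm b x ↔ b < Complex.arg x ∧ Complex.arg x < b + Real.pi := by
  have hn : 0 < ‖x‖ := norm_pos_iff.mpr hx
  rw [nrm_eq, mul_pos_iff_of_pos_left hn]
  have h1 := Complex.neg_pi_lt_arg x
  have h2 := Complex.arg_le_pi x
  obtain ⟨hb1, hb2⟩ := hb
  constructor
  · intro h
    constructor
    · by_contra hcon
      push Not at hcon
      have := Real.sin_nonpos_of_nonpos_of_neg_pi_le (x := Complex.arg x - b) (by linarith) (by linarith)
      linarith
    · by_contra hcon
      push Not at hcon
      have h3 : 0 ≤ Real.sin (Complex.arg x - b - Real.pi) :=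
        Real.sin_nonneg_of_nonneg_of_le_pi (by linarith) (by linarith)
      rw [Real.sin_sub_pi] at h3
      linarith
  · rintro ⟨h3, h4⟩
    exact Real.sin_pos_of_pos_of_lt_pi (by linarith) (by linarith)

theorem nrm_neg_iff {b : ℝ} (hb : b ∈ Ioc (-Real.pi) 0) {x : ℂ} (hx : x ≠ 0) :
    nrm b x < 0 ↔ Complex.arg x < b ∨ b + Real.pi < Complex.arg x := by
  have hn : 0 < ‖x‖ := norm_pos_iff.mpr hx
  rw [nrm_eq, mul_neg_iff]
  have h1 := Complex.neg_pi_lt_arg x
  have h2 := Complex.arg_le_pi x
  obtain ⟨hb1, hb2⟩ := hb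
  constructor
  · rintro (⟨-, h⟩ | ⟨h, -⟩)
    · by_contra hcon
      push Not at hcon
      have := Real.sin_nonneg_of_nonneg_of_le_pi (x := Complex.arg x - b) (by linarith) (by linarith)
      linarith
    · linarith
  · rintro (h | h)
    · exact Or.inl ⟨hn, Real.sin_neg_of_neg_of_neg_pi_lt (by linarith) (by linarith)⟩
    · refine Or.inl ⟨hn, ?_⟩
      have h3 : 0 < Real.sin (Complex.arg x - b - Real.pi) :=
        Real.sin_pos_of_pos_of_lt_pi (by linarith) (by linarith)
      rw [Real.sin_sub_pi] at h3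
      linarith

section

variable {m : Measure ℂ} [IsFiniteMeasure m]

/-- The masses of the arcs `(-π, b]` and `(0, b + π]` are equal. -/
theorem arc_eq (h0 : m {0} = 0) (hray : ∀ θ : ℝ, m {x | Complex.arg x = θ} = 0)
    (hhalf : ∀ b : ℝ, m {x | 0 < nrm b x} = m {x | nrm b x < 0}) {b : ℝ} (hb : b ∈ Ioc (-Real.pi) 0) :
    m {x | Complex.arg x ≤ b} = m {x | 0 < Complex.arg x ∧ Complex.arg x ≤ b + Real.pi} := by
  have hpi := Real.pi_pos
  obtain ⟨hb1, hb2⟩ := hb
  have ha := Complex.measurable_arg
  -- the four arcs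
  set P : Set ℂ := {x | Complex.arg x ≤ b} with hP
  set Q : Set ℂ := {x | b < Complex.arg x ∧ Complex.arg x ≤ 0} with hQ
  set R : Set ℂ := {x | 0 < Complex.arg x ∧ Complex.arg x ≤ b + Real.pi} with hR
  set S : Set ℂ := {x | b + Real.pi < Complex.arg x} with hS
  have mP : MeasurableSet P := measurableSet_le ha measurable_const
  have mQ : MeasurableSet Q := (measurableSet_lt measurable_const ha).inter (measurableSet_le ha measurable_const)
  have mR : MeasurableSet R := (measurableSet_lt measurable_const ha).inter (measurableSet_le ha measurable_const)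
  have mS : MeasurableSet S := measurableSet_lt measurable_const ha
  -- almost every point is not on the four rays
  have hae : ∀ θ : ℝ, ∀ᵐ x ∂m, Complex.arg x ≠ θ := by
    intro θ
    rw [ae_iff]
    simpa using hray θ
  have hae0 : ∀ᵐ x ∂m, x ≠ (0 : ℂ) := by
    rw [ae_iff]
    simpa using h0
  have e1 : m (Q ∪ R) = m (P ∪ S) := by
    have h1 : m (Q ∪ R) = m {x | 0 < nrm b x} := by
      apply measure_congr
      filter_upwards [hae0, hae (b + Real.pi)] with x hx hx1
      have := nrm_pos_iff ⟨hb1, hb2⟩ hx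
      apply propext
      show (x ∈ Q ∪ R) ↔ (0 < nrm b x)
      rw [this]
      constructor
      · rintro (⟨h2, h3⟩ | ⟨h2, h3⟩)
        · exact ⟨h2, by linarith⟩
        · exact ⟨by linarith, lt_of_le_of_ne h3 hx1⟩
      · rintro ⟨h2, h3⟩
        rcases le_or_gt (Complex.arg x) 0 with h4 | h4
        · exact Or.inl ⟨h2, h4⟩
        · exact Or.inr ⟨h4, h3.le⟩
    have h2 : m (P ∪ S) = m {x | nrm b x < 0} := by
      apply measure_congr
      filter_upwards [hae0, hae b] with x hx hx1
      have := nrm_neg_iff ⟨hb1, hb2⟩ hx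
      apply propext
      show (x ∈ P ∪ S) ↔ (nrm b x < 0)
      rw [this]
      constructor
      · rintro (h2 | h2)
        · exact Or.inl (lt_of_le_of_ne h2 hx1)
        · exact Or.inr h2
      · rintro (h2 | h2)
        · exact Or.inl h2.le
        · exact Or.inr h2
    rw [h1, h2]; exact hhalf b
  have e2 : m (R ∪ S) = m (P ∪ Q) := by
    have h1 : m (R ∪ S) = m {x | 0 < nrm 0 x} := by
      apply measure_congr
      filter_upwards [hae0, hae Real.pi] with x hx hx1
      have := nrm_pos_iff (b := 0) ⟨by linarith, le_rfl⟩ hx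
      have h9 := Complex.arg_le_pi x
      apply propext
      show (x ∈ R ∪ S) ↔ (0 < nrm 0 x)
      rw [this]
      constructor
      · rintro (⟨h2, h3⟩ | h2)
        · exact ⟨h2, by rw [zero_add]; exact lt_of_le_of_ne h9 hx1⟩
        · have h2' : b + Real.pi < Complex.arg x := h2
          exact ⟨by linarith, by rw [zero_add]; exact lt_of_le_of_ne h9 hx1⟩
      · rintro ⟨h2, h3⟩
        rcases le_or_gt (Complex.arg x) (b + Real.pi) with h4 | h4
        · exact Or.inl ⟨h2, h4⟩
        · exact Or.inr h4
    have h2 : m (P ∪ Q) = m {x | nrm 0 x < 0} := by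
      apply measure_congr
      filter_upwards [hae0, hae 0] with x hx hx1
      have := nrm_neg_iff (b := 0) ⟨by linarith, le_rfl⟩ hx
      have h9 := Complex.arg_le_pi x
      apply propext
      show (x ∈ P ∪ Q) ↔ (nrm 0 x < 0)
      rw [this]
      constructor
      · rintro (h2 | ⟨h2, h3⟩)
        · have h2' : Complex.arg x ≤ b := h2
          exact Or.inl (lt_of_le_of_ne (by linarith) hx1)
        · exact Or.inl (lt_of_le_of_ne h3 hx1)
      · rintro (h2 | h2)
        · rcases le_or_gt (Complex.arg x) b with h4 | h4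
          · exact Or.inl h4
          · exact Or.inr ⟨h4, h2.le⟩
        · linarith
    rw [h1, h2]; exact hhalf 0
  -- additivity
  have dQR : Disjoint Q R := by
    rw [Set.disjoint_left]; rintro x ⟨-, h1⟩ ⟨h2, -⟩; linarith
  have dPS : Disjoint P S := by
    rw [Set.disjoint_left]
    intro x (h1 : Complex.arg x ≤ b) (h2 : b + Real.pi < Complex.arg x)
    linarith
  have dRS : Disjoint R S := by
    rw [Set.disjoint_left]
    intro x (h1 : 0 < Complex.arg x ∧ Complex.arg x ≤ b + Real.pi) (h2 : b + Real.pi < Complex.arg x)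
    linarith [h1.2]
  have dPQ : Disjoint P Q := by
    rw [Set.disjoint_left]
    intro x (h1 : Complex.arg x ≤ b) (h2 : b < Complex.arg x ∧ Complex.arg x ≤ 0)
    linarith [h2.1]
  rw [measure_union dQR mR, measure_union dPS mS] at e1
  rw [measure_union dRS mS, measure_union dPQ mQ] at e2
  have fP : m P ≠ ⊤ := measure_ne_top m P
  have fQ : m Q ≠ ⊤ := measure_ne_top m Q
  have fR : m R ≠ ⊤ := measure_ne_top m R
  have fS : m S ≠ ⊤ := measure_ne_top m S
  have r1 : (m Q).toReal + (m R).toReal = (m P).toReal + (m S).toReal := by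
    rw [← ENNReal.toReal_add fQ fR, ← ENNReal.toReal_add fP fS, e1]
  have r2 : (m R).toReal + (m S).toReal = (m P).toReal + (m Q).toReal := by
    rw [← ENNReal.toReal_add fR fS, ← ENNReal.toReal_add fP fQ, e2]
  rw [← ENNReal.toReal_eq_toReal_iff' fP fR]
  linarith

/-- **Symmetry on cones.** -/
theorem conic_symm (h0 : m {0} = 0) (hray : ∀ θ : ℝ, m {x | Complex.arg x = θ} = 0)
    (hhalf : ∀ b : ℝ, m {x | 0 < nrm b x} = m {x | nrm b x < 0})
    {A : Set ℂ} (hA : MeasurableSet A) (hcone : ∀ x ∈ A, ∀ t : ℝ, 0 < t → t • x ∈ A) :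
    m A = m {x | -x ∈ A} := by
  have hpi := Real.pi_pos
  have ha := Complex.measurable_arg
  set U : Set ℂ := {x | Complex.arg x ≤ 0} with hU
  set V : Set ℂ := {x | 0 < Complex.arg x} with hV
  have mU : MeasurableSet U := measurableSet_le ha measurable_const
  have mV : MeasurableSet V := measurableSet_lt measurable_const ha
  have hUV : Uᶜ = V := by ext x; simp [hU, hV]
  set f : ℂ → ℝ := fun x => Complex.arg x with hf
  set g : ℂ → ℝ := fun x => Complex.arg x - Real.pi with hg
  have mf : Measurable f := ha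
  have mg : Measurable g := ha.sub_const _
  have key : Measure.map f (m.restrict U) = Measure.map g (m.restrict V) := by
    have : IsFiniteMeasure (Measure.map f (m.restrict U)) := Measure.isFiniteMeasure_map _ _
    apply Measure.ext_of_Iic
    intro a
    rw [Measure.map_apply mf measurableSet_Iic, Measure.map_apply mg measurableSet_Iic,
      Measure.restrict_apply (mf measurableSet_Iic), Measure.restrict_apply (mg measurableSet_Iic)]
    rcases le_or_gt a (-Real.pi) with h1 | h1
    · have e1 : f ⁻¹' Iic a ∩ U = ∅ := by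
        ext x
        simp only [mem_inter_iff, mem_preimage, mem_Iic, mem_empty_iff_false, iff_false, hf, hU]
        rintro ⟨h2, -⟩
        have := Complex.neg_pi_lt_arg x
        linarith
      have e2 : g ⁻¹' Iic a ∩ V = ∅ := by
        ext x
        simp only [mem_inter_iff, mem_preimage, mem_Iic, mem_empty_iff_false, iff_false, hg, hV,
          mem_ofPred_eq]
        rintro ⟨h2, h3⟩
        linarith
      rw [e1, e2]
    · rcases le_or_gt a 0 with h2 | h2
      · have e1 : f ⁻¹' Iic a ∩ U = {x | Complex.arg x ≤ a} := by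
          ext x
          simp only [mem_inter_iff, mem_preimage, mem_Iic, hf, hU, mem_ofPred_eq]
          constructor
          · rintro ⟨h3, -⟩; exact h3
          · intro h3; exact ⟨h3, by linarith⟩
        have e2 : g ⁻¹' Iic a ∩ V = {x | 0 < Complex.arg x ∧ Complex.arg x ≤ a + Real.pi} := by
          ext x
          simp only [mem_inter_iff, mem_preimage, mem_Iic, hg, hV, mem_ofPred_eq]
          constructor
          · rintro ⟨h3, h4⟩; exact ⟨h4, by linarith⟩
          · rintro ⟨h3, h4⟩; exact ⟨by linarith, h3⟩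
        rw [e1, e2]
        exact arc_eq h0 hray hhalf ⟨h1, h2⟩
      · have e1 : f ⁻¹' Iic a ∩ U = {x | Complex.arg x ≤ 0} := by
          ext x
          simp only [mem_inter_iff, mem_preimage, mem_Iic, hf, hU, mem_ofPred_eq]
          constructor
          · rintro ⟨-, h3⟩; exact h3
          · intro h3; exact ⟨by linarith, h3⟩
        have e2 : g ⁻¹' Iic a ∩ V = {x | 0 < Complex.arg x ∧ Complex.arg x ≤ 0 + Real.pi} := by
          ext x
          have := Complex.arg_le_pi x
          simp only [mem_inter_iff, mem_preimage, mem_Iic, hg, hV, mem_ofPred_eq]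
          constructor
          · rintro ⟨h3, h4⟩; exact ⟨h4, by linarith⟩
          · rintro ⟨h3, h4⟩; exact ⟨by linarith, h3⟩
        rw [e1, e2]
        exact arc_eq h0 hray hhalf ⟨by linarith, le_rfl⟩
  -- the directions of the cone
  set T : Set ℝ := {θ | Complex.exp (θ * Complex.I) ∈ A} with hT
  have mT : MeasurableSet T := by
    have hc : Measurable (fun θ : ℝ => Complex.exp (θ * Complex.I)) := by fun_prop
    exact hc hA
  have hAT : ∀ x : ℂ, x ≠ 0 → (x ∈ A ↔ Complex.arg x ∈ T) := by
    intro x hx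
    have hn : 0 < ‖x‖ := norm_pos_iff.mpr hx
    have h1 := Complex.norm_mul_exp_arg_mul_I x
    constructor
    · intro h2
      show Complex.exp (Complex.arg x * Complex.I) ∈ A
      have h3 := hcone x h2 (‖x‖⁻¹) (inv_pos.mpr hn)
      have h4 : ‖x‖ • Complex.exp (Complex.arg x * Complex.I) = x := by
        rw [Complex.real_smul, h1]
      have h5 : (‖x‖⁻¹ : ℝ) • x = Complex.exp (Complex.arg x * Complex.I) := by
        calc (‖x‖⁻¹ : ℝ) • x = (‖x‖⁻¹ : ℝ) • (‖x‖ • Complex.exp (Complex.arg x * Complex.I)) := by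
              rw [h4]
          _ = Complex.exp (Complex.arg x * Complex.I) := by
              rw [smul_smul, inv_mul_cancel₀ hn.ne', one_smul]
      rwa [h5] at h3
    · intro h2
      have h3 := hcone _ h2 ‖x‖ hn
      rwa [Complex.real_smul, h1] at h3
  have hTper : ∀ θ : ℝ, θ + Real.pi ∈ T ↔ θ - Real.pi ∈ T := by
    intro θ
    show Complex.exp (((θ + Real.pi : ℝ) : ℂ) * Complex.I) ∈ A ↔
      Complex.exp (((θ - Real.pi : ℝ) : ℂ) * Complex.I) ∈ A
    have : Complex.exp (((θ + Real.pi : ℝ) : ℂ) * Complex.I) =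
        Complex.exp (((θ - Real.pi : ℝ) : ℂ) * Complex.I) := by
      rw [← Complex.exp_periodic (((θ - Real.pi : ℝ) : ℂ) * Complex.I)]
      congr 1
      push_cast
      ring
    rw [this]
  have hAT' : ∀ x : ℂ, x ≠ 0 → (-x ∈ A ↔ Complex.arg x - Real.pi ∈ T) := by
    intro x hx
    have hn : 0 < ‖x‖ := norm_pos_iff.mpr hx
    have h1 := Complex.norm_mul_exp_arg_mul_I x
    have h5 : Complex.exp (((Complex.arg x - Real.pi : ℝ) : ℂ) * Complex.I) =
        -Complex.exp (Complex.arg x * Complex.I) := by
      push_cast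
      rw [sub_mul, Complex.exp_sub, Complex.exp_pi_mul_I]
      ring
    have h6 : ‖x‖ • Complex.exp (((Complex.arg x - Real.pi : ℝ) : ℂ) * Complex.I) = -x := by
      rw [h5, Complex.real_smul, mul_neg, h1]
    constructor
    · intro h2
      show Complex.exp (((Complex.arg x - Real.pi : ℝ) : ℂ) * Complex.I) ∈ A
      have h3 := hcone _ h2 (‖x‖⁻¹) (inv_pos.mpr hn)
      rwa [← h6, smul_smul, inv_mul_cancel₀ hn.ne', one_smul] at h3
    · intro h2
      have h3 := hcone _ h2 ‖x‖ hn
      rwa [h6] at h3
  have hae0 : ∀ᵐ x ∂m, x ≠ (0 : ℂ) := by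
    rw [ae_iff]
    simpa using h0
  set T' : Set ℝ := {θ | θ - Real.pi ∈ T} with hT'
  have mT' : MeasurableSet T' := (measurable_id.sub_const _) mT
  have k1 : m (f ⁻¹' T ∩ U) = m (g ⁻¹' T ∩ V) := by
    have := congrArg (fun ν : Measure ℝ => ν T) key
    simpa only [Measure.map_apply mf mT, Measure.map_apply mg mT, Measure.restrict_apply (mf mT),
      Measure.restrict_apply (mg mT)] using this
  have k2 : m (f ⁻¹' T' ∩ U) = m (g ⁻¹' T' ∩ V) := by
    have := congrArg (fun ν : Measure ℝ => ν T') key
    simpa only [Measure.map_apply mf mT', Measure.map_apply mg mT', Measure.restrict_apply (mf mT'),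
      Measure.restrict_apply (mg mT')] using this
  have a1 : m (A ∩ U) = m (f ⁻¹' T ∩ U) := by
    apply measure_congr
    filter_upwards [hae0] with x hx
    apply propext
    show (x ∈ A ∧ x ∈ U) ↔ (Complex.arg x ∈ T ∧ x ∈ U)
    rw [hAT x hx]
  have a2 : m (A ∩ V) = m (g ⁻¹' T' ∩ V) := by
    apply measure_congr
    filter_upwards [hae0] with x hx
    apply propext
    show (x ∈ A ∧ x ∈ V) ↔ (Complex.arg x - Real.pi - Real.pi ∈ T ∧ x ∈ V)
    rw [hAT x hx, ← hTper (Complex.arg x - Real.pi), sub_add_cancel]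
  have a3 : m ({x | -x ∈ A} ∩ U) = m (f ⁻¹' T' ∩ U) := by
    apply measure_congr
    filter_upwards [hae0] with x hx
    apply propext
    show (-x ∈ A ∧ x ∈ U) ↔ (Complex.arg x - Real.pi ∈ T ∧ x ∈ U)
    rw [hAT' x hx]
  have a4 : m ({x | -x ∈ A} ∩ V) = m (g ⁻¹' T ∩ V) := by
    apply measure_congr
    filter_upwards [hae0] with x hx
    apply propext
    show (-x ∈ A ∧ x ∈ V) ↔ (Complex.arg x - Real.pi ∈ T ∧ x ∈ V)
    rw [hAT' x hx]
  have s1 : m A = m (A ∩ U) + m (A ∩ V) := by
    rw [← measure_inter_add_sdiff A mU, Set.sdiff_eq, hUV]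
  have s2 : m {x | -x ∈ A} = m ({x | -x ∈ A} ∩ U) + m ({x | -x ∈ A} ∩ V) := by
    rw [← measure_inter_add_sdiff {x | -x ∈ A} mU, Set.sdiff_eq, hUV]
  rw [s1, s2, a1, a2, a3, a4, k1, k2, add_comm]

end

end Pool.Agent.Run7.h658.PB
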