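import Pool.Agent.Run7.h658.PB.Two
import Pool.Agent.Run7.h658.PB.Conic

/-!
# Klamkin's question about perimeter-bisecting points, in the complex plane, with the point `0`
-/

open MeasureTheory Metric Set
open scoped ENNReal Pointwise

namespace Pool.Agent.Run7.h658.PB

open Pool.Agent.Helper533.ConvexObstacle

/-- A point all whose lines bisect the perimeter is an interior point. -/
theorem zero_mem_interior {K : Set ℂ} (hc : Convex ℝ K) (hK : IsCompact K) (hi : (interior K).Nonempty)
    (H : ∀ u : ℂ, u ≠ 0 → (μH[1] : Measure ℂ) (frontier K ∩ {x | 0 < inner ℝ u x}) =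
      μH[1] (frontier K ∩ {x | inner ℝ u x < 0})) : (0 : ℂ) ∈ interior K := by
  by_contra h0
  obtain ⟨f, hf⟩ := geometric_hahn_banach_open_point hc.interior isOpen_interior h0
  rw [map_zero] at hf
  obtain ⟨c, hcK⟩ := hi
  set u : ℂ := (InnerProductSpace.toDual ℝ ℂ).symm f with hu
  have huf : ∀ x : ℂ, inner ℝ u x = f x := fun x => by
    rw [hu, InnerProductSpace.toDual_symm_apply]
  have hu0 : u ≠ 0 := by
    intro h
    have h1 := hf c hcK
    rw [← huf c, h, inner_zero_left] at h1
    exact lt_irrefl _ h1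
  have hun : 0 < ‖u‖ := norm_pos_iff.mpr hu0
  have hle : ∀ x ∈ K, inner ℝ u x ≤ (0 : ℝ) := by
    have hcl : IsClosed {x : ℂ | inner ℝ u x ≤ (0 : ℝ)} := isClosed_le (by fun_prop) continuous_const
    have h1 : closure (interior K) ⊆ {x : ℂ | inner ℝ u x ≤ (0 : ℝ)} :=
      closure_minimal (fun x hx => by
        show inner ℝ u x ≤ (0 : ℝ)
        rw [huf]; exact (hf x hx).le) hcl
    rw [hc.closure_interior_eq_closure_of_nonempty_interior ⟨c, hcK⟩, hK.isClosed.closure_eq] at h1
    exact h1
  have h1 : (μH[1] : Measure ℂ) (frontier K ∩ {x | inner ℝ u x < 0}) = 0 := by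
    rw [← H u hu0]
    have : frontier K ∩ {x | 0 < inner ℝ u x} = ∅ := by
      ext x
      simp only [mem_inter_iff, mem_empty_iff_false, iff_false, not_and]
      intro hx (hx2 : 0 < inner ℝ u x)
      have := hle x (hK.isClosed.frontier_subset hx)
      linarith
    rw [this, measure_empty]
  -- the projection in the direction of the line
  set v : ℂ := (‖u‖⁻¹ : ℝ) • (Complex.I * u) with hv
  have hvn : ‖v‖ = 1 := by
    rw [hv, norm_smul, norm_mul, Complex.norm_I, one_mul, norm_inv, norm_norm, inv_mul_cancel₀ hun.ne']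
  have hvu : inner ℝ v u = (0 : ℝ) := by
    rw [hv, inner_smul_left, Complex.inner]
    simp [Complex.mul_re]
    right
    ring
  have huv : inner ℝ u v = (0 : ℝ) := by rw [real_inner_comm]; exact hvu
  clear_value v
  obtain ⟨ε, hε, hball⟩ := Metric.isOpen_iff.mp isOpen_interior c hcK
  have key : Ioo (inner ℝ v c) (inner ℝ v c + ε) ⊆ (fun z : ℂ => inner ℝ v z) ''
      (frontier K ∩ {x | inner ℝ u x < 0}) := by
    intro y hy
    set s : ℝ := y - inner ℝ v c with hs
    have hs0 : 0 < s := by rw [hs]; linarith [hy.1]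
    have hs1 : s < ε := by rw [hs]; linarith [hy.2]
    have hx₀ : c + s • v ∈ interior K := hball (by
      rw [mem_ball, dist_eq_norm, add_sub_cancel_left, norm_smul, hvn, mul_one,
        Real.norm_of_nonneg hs0.le]
      exact hs1)
    obtain ⟨κ, hκ, hκ2⟩ := exists_last hK (interior_subset hx₀) (neg_ne_zero.mpr hu0)
    refine ⟨c + s • v + κ • -u, ⟨hκ2, ?_⟩, ?_⟩
    · show inner ℝ u (c + s • v + κ • -u) < 0
      rw [inner_add_right, inner_smul_right, inner_neg_right]
      have h2 := hf _ hx₀
      rw [← huf] at h2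
      have h3 : (0 : ℝ) ≤ κ * inner ℝ u u := mul_nonneg hκ real_inner_self_nonneg
      linarith
    · show inner ℝ v (c + s • v + κ • -u) = y
      rw [inner_add_right, inner_add_right, inner_smul_right, inner_smul_right, inner_neg_right, hvu,
        real_inner_self_eq_norm_sq, hvn, hs]
      ring
  have h2 := proj_lower (lip_inner hvn) key
  rw [h1, add_sub_cancel_left, nonpos_iff_eq_zero, ENNReal.ofReal_eq_zero] at h2
  linarith

/-- **Klamkin's question, for the point `0` of the complex plane.** -/
theorem klamkin_zero {K : Set ℂ} (hc : Convex ℝ K) (hK : IsCompact K) (hi : (interior K).Nonempty)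
    (H : ∀ u : ℂ, u ≠ 0 → (μH[1] : Measure ℂ) (frontier K ∩ {x | 0 < inner ℝ u x}) =
      μH[1] (frontier K ∩ {x | inner ℝ u x < 0})) : -K = K := by
  have h0 : (0 : ℂ) ∈ interior K := zero_mem_interior hc hK hi H
  have hint : interior (-K) = -interior K := ((Homeomorph.neg ℂ).preimage_interior K).symm
  have h0' : (0 : ℂ) ∈ interior (-K) := by
    rw [hint, Set.mem_neg, neg_zero]
    exact h0
  have hfr : frontier (-K) = -frontier K := by
    exact ((Homeomorph.neg ℂ).preimage_frontier K).symm
  have hmneg : ∀ S : Set ℂ, (μH[1] : Measure ℂ) (-S) = μH[1] S := by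
    intro S
    have : -S = (IsometryEquiv.neg ℂ) '' S := by
      ext x
      simp only [Set.mem_neg, Set.mem_image, IsometryEquiv.neg_apply]
      constructor
      · intro hx; exact ⟨-x, hx, neg_neg x⟩
      · rintro ⟨y, hy, rfl⟩; rwa [neg_neg]
    rw [this, IsometryEquiv.hausdorffMeasure_image]
  have hFm : MeasurableSet (frontier K) := isClosed_frontier.measurableSet
  -- the length measure of the boundary
  set m : Measure ℂ := (μH[1] : Measure ℂ).restrict (frontier K) with hm
  have hfin : IsFiniteMeasure m := ⟨by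
    rw [hm, Measure.restrict_apply_univ]
    exact lt_top_iff_ne_top.mpr (perim_ne_top hc hK hi)⟩
  have hm_apply : ∀ {S : Set ℂ}, MeasurableSet S → m S = μH[1] (frontier K ∩ S) := by
    intro S hS
    rw [hm, Measure.restrict_apply hS, inter_comm]
  have hm0 : m {0} = 0 := by
    rw [hm_apply (measurableSet_singleton 0)]
    have : frontier K ∩ {0} = ∅ := by
      ext x
      simp only [mem_inter_iff, mem_singleton_iff, mem_empty_iff_false, iff_false, not_and]
      rintro hx rfl
      rw [hK.isClosed.frontier_eq] at hx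
      exact hx.2 h0
    rw [this, measure_empty]
  have hray : ∀ θ : ℝ, m {x | Complex.arg x = θ} = 0 := by
    intro θ
    rw [hm_apply (measurableSet_eq_fun Complex.measurable_arg measurable_const)]
    exact ray_null hc h0 θ
  have hnrm : ∀ (b : ℝ) (x : ℂ), nrm b x =
      inner ℝ (Complex.I * Complex.exp (b * Complex.I)) x := by
    intro b x
    rw [Complex.inner, nrm, Complex.exp_mul_I, ← Complex.ofReal_cos, ← Complex.ofReal_sin]
    simp [Complex.mul_re, Complex.mul_im, Complex.cos_ofReal_re, Complex.sin_ofReal_re,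
      Complex.cos_ofReal_im, Complex.sin_ofReal_im]
    ring
  have hhalf : ∀ b : ℝ, m {x | 0 < nrm b x} = m {x | nrm b x < 0} := by
    intro b
    rw [hm_apply (measurableSet_lt measurable_const (continuous_nrm b).measurable),
      hm_apply (measurableSet_lt (continuous_nrm b).measurable measurable_const)]
    have := H (Complex.I * Complex.exp (b * Complex.I))
      (mul_ne_zero Complex.I_ne_zero (Complex.exp_ne_zero _))
    simp only [hnrm]
    exact this
  have hcone := fun {A : Set ℂ} => conic_symm (m := m) hm0 hray hhalf (A := A)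
  have hKn : K ∈ nhds (0 : ℂ) := mem_interior_iff_mem_nhds.mp h0
  have hKn' : -K ∈ nhds (0 : ℂ) := mem_interior_iff_mem_nhds.mp h0'
  have hKg : Continuous (gauge K) := continuous_gauge hc hKn
  have hKg' : Continuous (gauge (-K)) := continuous_gauge hc.neg hKn'
  -- the lengths of the two boundaries agree on cones
  have hagree : ∀ A : Set ℂ, MeasurableSet A → (∀ x ∈ A, ∀ t : ℝ, 0 < t → t • x ∈ A) →
      (μH[1] : Measure ℂ) (frontier K ∩ A) = μH[1] (frontier (-K) ∩ A) := by
    intro A hA hAc
    have h1 := hcone hA hAc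
    have hA' : MeasurableSet {x : ℂ | -x ∈ A} := measurable_neg hA
    rw [hm_apply hA, hm_apply hA'] at h1
    rw [h1, hfr, ← hmneg (frontier K ∩ {x | -x ∈ A})]
    congr 1
    ext x
    simp
  have hconic : ∀ (P Q : Set ℂ), ∀ x ∈ {x : ℂ | gauge P x < gauge Q x}, ∀ t : ℝ, 0 < t →
      t • x ∈ {x : ℂ | gauge P x < gauge Q x} := by
    intro P Q x hx t ht
    show gauge P (t • x) < gauge Q (t • x)
    rw [gauge_smul_of_nonneg ht.le, gauge_smul_of_nonneg ht.le, smul_eq_mul, smul_eq_mul]
    exact mul_lt_mul_of_pos_left hx ht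
  have s1 : K ⊆ -K := by
    apply subset_of_conic hc hK h0 hc.neg hK.neg h0'
    exact (hagree _ (isOpen_lt hKg hKg').measurableSet (hconic _ _)).le
  have s2 : -K ⊆ K := by
    apply subset_of_conic hc.neg hK.neg h0' hc hK h0
    exact (hagree _ (isOpen_lt hKg' hKg).measurableSet (hconic _ _)).ge
  exact subset_antisymm s2 s1

end Pool.Agent.Run7.h658.PB
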