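import Pool.Agent.Helper533.ConvexObstacle.Cut

/-!
# Strict monotonicity of the perimeter of plane convex sets

`strict_perim`: if `I ⊆ K` are compact convex sets of the plane, the interior of `I` is nonempty and
`I ≠ K`, then the length of the boundary of `I` is smaller than the length of the boundary of `K`.
(The inequality `≤` is `perim_mono` of the starting files.)
-/

open MeasureTheory Metric Set
open scoped ENNReal

namespace Pool.Agent.Run7.h658.PB

open Pool.Agent.Helper533.ConvexObstacle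

/-- The length of the boundary of a compact set is finite if the set is in a ball and convex. -/
theorem perim_ne_top {K : Set ℂ} (hc : Convex ℝ K) (hK : IsCompact K) (hi : (interior K).Nonempty) :
    (μH[1] : Measure ℂ) (frontier K) ≠ ⊤ := by
  obtain ⟨B, hB⟩ := hK.isBounded.exists_norm_le
  have hB' : ∀ x ∈ K, x ∈ closedBall (0 : ℂ) (|B| + 1) := fun x hx => by
    rw [mem_closedBall, dist_zero_right]
    have := hB x hx
    have := le_abs_self B
    linarith
  have hpos : (0 : ℝ) < |B| + 1 := by positivity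
  have h1 := perim_mono hc hK hi (isCompact_closedBall (0 : ℂ) (|B| + 1)) hB'
  rw [perim_ball hpos] at h1
  exact ne_top_of_le_ne_top (ENNReal.mul_ne_top ENNReal.ofReal_ne_top c₁_ne_top) h1

/-- a linear functional given by a unit vector is `1`-Lipschitz -/
theorem lip_inner {d : ℂ} (hd : ‖d‖ = 1) : LipschitzWith 1 (fun z : ℂ => inner ℝ d z) := by
  apply LipschitzWith.of_dist_le_mul
  intro x y
  rw [NNReal.coe_one, one_mul, Real.dist_eq, dist_eq_norm, ← inner_sub_right]
  have := abs_real_inner_le_norm d (x - y)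
  rw [hd, one_mul] at this
  exact this

/-- One side of a cap.  `m` is an interior point of `K`, `v`, `e` orthonormal, `p = m + s v` and
`z = m + h e` are in `K`, `h > 0`, `σ s > 0` (`σ = ± 1`): the boundary of `K` in the quarter plane
`{σ x > 0, t > 0}` has length at least `√(s² + h²)`. -/
theorem quarter {K : Set ℂ} (hc : Convex ℝ K) (hK : IsCompact K) {m v e : ℂ}
    (hv : ‖v‖ = 1) (he : ‖e‖ = 1) (hve : inner ℝ v e = (0 : ℝ)) {s h : ℝ} (hs : s ≠ 0) (hh : 0 < h)
    (hp : m + s • v ∈ K) (hz : m + h • e ∈ K) :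
    ENNReal.ofReal (√ (s ^ 2 + h ^ 2)) ≤ (μH[1] : Measure ℂ)
      (frontier K ∩ {x | 0 < s * inner ℝ v (x - m) ∧ 0 < inner ℝ e (x - m)}) := by
  set N : ℝ := √ (s ^ 2 + h ^ 2) with hN
  have hN0 : 0 < N := Real.sqrt_pos.mpr (by positivity)
  have hN2 : N ^ 2 = s ^ 2 + h ^ 2 := Real.sq_sqrt (by positivity)
  have hev : inner ℝ e v = (0 : ℝ) := by rw [real_inner_comm]; exact hve
  have hvv : inner ℝ v v = (1 : ℝ) := by rw [real_inner_self_eq_norm_sq, hv]; norm_num
  have hee : inner ℝ e e = (1 : ℝ) := by rw [real_inner_self_eq_norm_sq, he]; norm_num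
  -- the unit vector in the direction from `p` to `z`
  set d : ℂ := (N⁻¹ * -s) • v + (N⁻¹ * h) • e with hd
  have hdn : ‖d‖ = 1 := by
    have h1 : ‖d‖ ^ 2 = 1 := by
      rw [← real_inner_self_eq_norm_sq, hd]
      simp only [inner_add_left, inner_add_right, inner_smul_left, inner_smul_right, hev, hve, hvv, hee,
        RCLike.conj_to_real]
      field_simp
      linarith [hN2]
    nlinarith [norm_nonneg d]
  -- the outer normal
  set ν : ℂ := h • (s • v) + (s ^ 2) • e with hν
  have hνe : inner ℝ e ν = s ^ 2 := by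
    rw [hν]
    simp only [inner_add_right, inner_smul_right, hev, hee]
    ring
  have hνv : inner ℝ v ν = h * s := by
    rw [hν]
    simp only [inner_add_right, inner_smul_right, hve, hvv]
    ring
  have hνd : inner ℝ d ν = (0 : ℝ) := by
    rw [hd, inner_add_left, inner_smul_left, inner_smul_left, hνe, hνv]
    simp only [RCLike.conj_to_real]
    ring
  have hν0 : ν ≠ 0 := by
    intro h0
    have : inner ℝ e ν = (0 : ℝ) := by rw [h0, inner_zero_right]
    rw [hνe] at this
    exact hs (by simpa using this)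
  have key : Ioo (inner ℝ d (m + s • v)) (inner ℝ d (m + s • v) + N) ⊆ (fun z : ℂ => inner ℝ d z) ''
      (frontier K ∩ {x | 0 < s * inner ℝ v (x - m) ∧ 0 < inner ℝ e (x - m)}) := by
    intro y hy
    set τ : ℝ := (y - inner ℝ d (m + s • v)) / N with hτ
    have hτ0 : 0 < τ := div_pos (by linarith [hy.1]) hN0
    have hτ1 : τ < 1 := by rw [hτ, div_lt_one hN0]; linarith [hy.2]
    have hτN : τ * N = y - inner ℝ d (m + s • v) := by rw [hτ]; field_simp
    set x₀ : ℂ := m + ((1 - τ) * s) • v + (τ * h) • e with hx₀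
    have hx₀K : x₀ ∈ K := by
      have := hc hp hz (sub_nonneg.mpr hτ1.le) hτ0.le (by ring)
      have e1 : (1 - τ) • (m + s • v) + τ • (m + h • e) = x₀ := by
        rw [hx₀]; module
      rw [e1] at this
      exact this
    obtain ⟨κ, hκ, hκ2⟩ := exists_last hK hx₀K hν0
    refine ⟨x₀ + κ • ν, ⟨hκ2, ?_, ?_⟩, ?_⟩
    · have e2 : x₀ + κ • ν - m = ((1 - τ) * s) • v + (τ * h) • e + κ • ν := by rw [hx₀]; abel
      rw [e2]
      simp only [inner_add_right, inner_smul_right, hve, hvv, hνv]
      have : 0 < s ^ 2 := by positivity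
      have h3 : 0 < (1 - τ) * s ^ 2 := mul_pos (by linarith) this
      have h4 : 0 ≤ κ * h * s ^ 2 := by positivity
      nlinarith
    · have e2 : x₀ + κ • ν - m = ((1 - τ) * s) • v + (τ * h) • e + κ • ν := by rw [hx₀]; abel
      rw [e2]
      simp only [inner_add_right, inner_smul_right, hev, hee, hνe]
      have h3 : 0 < τ * h := mul_pos hτ0 hh
      have h4 : 0 ≤ κ * s ^ 2 := by positivity
      nlinarith
    · show inner ℝ d (x₀ + κ • ν) = y
      rw [inner_add_right, inner_smul_right, hνd, mul_zero, add_zero]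
      have e3 : x₀ = (m + s • v) + (τ * N) • d := by
        rw [hx₀, hd]
        have hNN : N * N⁻¹ = 1 := mul_inv_cancel₀ hN0.ne'
        rw [smul_add, smul_smul, smul_smul]
        have e4 : τ * N * (N⁻¹ * -s) = -(τ * s) := by
          calc τ * N * (N⁻¹ * -s) = (N * N⁻¹) * (τ * -s) := by ring
            _ = -(τ * s) := by rw [hNN]; ring
        have e5 : τ * N * (N⁻¹ * h) = τ * h := by
          calc τ * N * (N⁻¹ * h) = (N * N⁻¹) * (τ * h) := by ring
            _ = τ * h := by rw [hNN]; ring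
        rw [e4, e5]
        module
      rw [e3, inner_add_right, inner_smul_right, real_inner_self_eq_norm_sq, hdn, hτN]
      ring
  have := proj_lower (lip_inner hdn) key
  rw [add_sub_cancel_left] at this
  exact this

/-- **Strict monotonicity of the perimeter.** -/
theorem strict_perim {I K : Set ℂ} (hIc : Convex ℝ I) (hI : IsCompact I) (hIi : (interior I).Nonempty)
    (hc : Convex ℝ K) (hK : IsCompact K) (hIK : I ⊆ K) (hne : ¬ K ⊆ I) :
    (μH[1] : Measure ℂ) (frontier I) < μH[1] (frontier K) := by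
  have hKi : (interior K).Nonempty := hIi.mono (interior_mono hIK)
  -- a point of the interior of `K` which is not in `I`
  obtain ⟨z, hzK, hzI⟩ : ∃ z ∈ interior K, z ∉ I := by
    by_contra hcon
    push Not at hcon
    apply hne
    have h1 : closure (interior K) ⊆ I := closure_minimal (fun z hz => hcon z hz) hI.isClosed
    rw [hc.closure_interior_eq_closure_of_nonempty_interior hKi, hK.isClosed.closure_eq] at h1
    exact h1
  obtain ⟨i₀, hi₀, hmin⟩ := exists_norm_eq_iInf_of_complete_convex (hIi.mono interior_subset)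
    hI.isComplete hIc z
  have hproj : ∀ w ∈ I, inner ℝ (z - i₀) (w - i₀) ≤ 0 :=
    (norm_eq_iInf_iff_real_inner_le_zero hIc hi₀).mp hmin
  have hzi : z - i₀ ≠ 0 := fun h0 => hzI (by rw [sub_eq_zero.mp h0]; exact hi₀)
  set r : ℝ := ‖z - i₀‖ with hr
  have hr0 : 0 < r := norm_pos_iff.mpr hzi
  set e : ℂ := r⁻¹ • (z - i₀) with he
  have hen : ‖e‖ = 1 := by
    rw [he, norm_smul, norm_inv, Real.norm_of_nonneg hr0.le, ← hr, inv_mul_cancel₀ hr0.ne']
  have hre : r • e = z - i₀ := by rw [he, smul_smul, mul_inv_cancel₀ hr0.ne', one_smul]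
  set v : ℂ := Complex.I * e with hv
  have hvn : ‖v‖ = 1 := by rw [hv, norm_mul, Complex.norm_I, one_mul, hen]
  have hve : inner ℝ v e = (0 : ℝ) := by
    rw [hv, Complex.inner]
    simp [Complex.mul_re]
    ring
  have hev : inner ℝ e v = (0 : ℝ) := by rw [real_inner_comm]; exact hve
  have hvv : inner ℝ v v = (1 : ℝ) := by rw [real_inner_self_eq_norm_sq, hvn]; norm_num
  have hee : inner ℝ e e = (1 : ℝ) := by rw [real_inner_self_eq_norm_sq, hen]; norm_num
  -- the plane is spanned by `v`, `e`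
  have hexp : ∀ x : ℂ, x = (inner ℝ v x : ℝ) • v + (inner ℝ e x : ℝ) • e := by
    intro x
    have h2 : e.re ^ 2 + e.im ^ 2 = 1 := by
      have : ‖e‖ ^ 2 = 1 := by rw [hen]; norm_num
      rw [← Complex.normSq_eq_norm_sq, Complex.normSq_apply] at this
      nlinarith
    rw [hv, Complex.inner, Complex.inner]
    apply Complex.ext
    · simp [Complex.mul_re, Complex.mul_im]
      linear_combination (-x.re) * h2
    · simp [Complex.mul_re, Complex.mul_im]
      linear_combination (-x.im) * h2
  set m : ℂ := (1 / 2 : ℝ) • z + (1 / 2 : ℝ) • i₀ with hm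
  have hmK : m ∈ interior K := by
    rw [hm]
    exact hc.combo_interior_self_mem_interior hzK (hIK hi₀) (by norm_num) (by norm_num) (by norm_num)
  set h : ℝ := r / 2 with hh
  have hh0 : 0 < h := by rw [hh]; positivity
  have hzm : m + h • e = z := by
    have hh2 : h = (1 / 2 : ℝ) * r := by rw [hh]; ring
    have : h • e = (1 / 2 : ℝ) • (r • e) := by
      rw [hh2, mul_smul]
    rw [this, hre, hm]; module
  have hi₀m : ∀ w ∈ I, inner ℝ e (w - m) ≤ 0 := by
    intro w hw
    have h1 := hproj w hw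
    have h2 : w - m = (w - i₀) - (1 / 2 : ℝ) • (z - i₀) := by rw [hm]; module
    rw [h2, inner_sub_right, he, inner_smul_left, inner_smul_left, inner_smul_right,
      real_inner_self_eq_norm_sq]
    simp only [RCLike.conj_to_real]
    have h3 : r⁻¹ * inner ℝ (z - i₀) (w - i₀) ≤ 0 :=
      mul_nonpos_of_nonneg_of_nonpos (by positivity) h1
    have h4 : 0 ≤ r⁻¹ * (1 / 2 * ‖z - i₀‖ ^ 2) := by positivity
    linarith
  -- the chord
  set S : Set ℝ := {s | m + s • v ∈ K} with hS
  have hSc : IsClosed S := hK.isClosed.preimage (by fun_prop : Continuous fun s : ℝ => m + s • v)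
  have hSb : Bornology.IsBounded S := by
    obtain ⟨B, hB⟩ := hK.isBounded.exists_norm_le
    rw [isBounded_iff_forall_norm_le]
    refine ⟨B + ‖m‖, fun t ht => ?_⟩
    have h1 := hB _ ht
    have h3 := norm_sub_le (m + t • v) m
    rw [add_sub_cancel_left, norm_smul, hvn, mul_one] at h3
    linarith
  have hScomp : IsCompact S := Metric.isCompact_of_isClosed_isBounded hSc hSb
  have hS0 : S ∈ nhds (0 : ℝ) := by
    have hcont : Continuous fun s : ℝ => m + s • v := by fun_prop
    apply hcont.continuousAt.preimage_mem_nhds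
    simp only [zero_smul, add_zero]
    exact mem_interior_iff_mem_nhds.mp hmK
  have hSne : S.Nonempty := ⟨0, mem_of_mem_nhds hS0⟩
  obtain ⟨s₂, hs₂, hs₂m⟩ := hScomp.exists_isGreatest hSne
  obtain ⟨s₁, hs₁, hs₁m⟩ := hScomp.exists_isLeast hSne
  have hs₂0 : 0 < s₂ := by
    obtain ⟨ε, hε, hball⟩ := Metric.mem_nhds_iff.mp hS0
    have : ε / 2 ∈ S := hball (by rw [mem_ball, dist_zero_right, Real.norm_of_nonneg (by positivity)]; linarith)
    have := hs₂m this
    linarith
  have hs₁0 : s₁ < 0 := by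
    obtain ⟨ε, hε, hball⟩ := Metric.mem_nhds_iff.mp hS0
    have : -(ε / 2) ∈ S := hball (by
      rw [mem_ball, dist_zero_right, norm_neg, Real.norm_of_nonneg (by positivity)]; linarith)
    have := hs₁m this
    linarith
  -- lower bounds for the cap
  have hzK' : m + h • e ∈ K := by rw [hzm]; exact interior_subset hzK
  have q1 := quarter hc hK hvn hen hve hs₁0.ne hh0 hs₁ hzK'
  have q2 := quarter hc hK hvn hen hve hs₂0.ne' hh0 hs₂ hzK'
  set N₁ : ℝ := √ (s₁ ^ 2 + h ^ 2) with hN₁
  set N₂ : ℝ := √ (s₂ ^ 2 + h ^ 2) with hN₂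
  have hN₁' : -s₁ < N₁ := by
    rw [hN₁]; apply Real.lt_sqrt_of_sq_lt; nlinarith
  have hN₂' : s₂ < N₂ := by
    rw [hN₂]; apply Real.lt_sqrt_of_sq_lt; nlinarith
  set F := frontier K with hF
  set G : Set ℂ := {x | inner ℝ e (x - m) ≤ 0} with hG
  have hGc : IsClosed G := isClosed_le (by fun_prop) continuous_const
  have hmeasG : MeasurableSet G := hGc.measurableSet
  set X₁ : Set ℂ := {x | 0 < s₁ * inner ℝ v (x - m) ∧ 0 < inner ℝ e (x - m)} with hX₁
  set X₂ : Set ℂ := {x | 0 < s₂ * inner ℝ v (x - m) ∧ 0 < inner ℝ e (x - m)} with hX₂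
  have hX₂o : IsOpen X₂ := by
    have ha : IsOpen {x : ℂ | 0 < s₂ * inner ℝ v (x - m)} :=
      isOpen_lt continuous_const (by fun_prop)
    have hb : IsOpen {x : ℂ | 0 < inner ℝ e (x - m)} := isOpen_lt continuous_const (by fun_prop)
    exact ha.inter hb
  have hFm : MeasurableSet F := isClosed_frontier.measurableSet
  have hdisj : Disjoint (F ∩ X₁) (F ∩ X₂) := by
    rw [Set.disjoint_left]
    rintro x ⟨-, h1, -⟩ ⟨-, h2, -⟩
    have h3 : inner ℝ v (x - m) < 0 := by
      by_contra hcon
      push Not at hcon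
      nlinarith
    nlinarith
  have hcap : ENNReal.ofReal N₁ + ENNReal.ofReal N₂ ≤ (μH[1] : Measure ℂ) (F \ G) := by
    calc ENNReal.ofReal N₁ + ENNReal.ofReal N₂ ≤ μH[1] (F ∩ X₁) + μH[1] (F ∩ X₂) := add_le_add q1 q2
      _ = μH[1] ((F ∩ X₁) ∪ (F ∩ X₂)) := (measure_union hdisj (hFm.inter hX₂o.measurableSet)).symm
      _ ≤ μH[1] (F \ G) := by
          apply measure_mono
          rintro x (⟨hxF, -, hx⟩ | ⟨hxF, -, hx⟩)
          · exact ⟨hxF, fun hxG => absurd hx (not_lt.mpr hxG)⟩
          · exact ⟨hxF, fun hxG => absurd hx (not_lt.mpr hxG)⟩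
  -- the truncated set
  have hIsub : I ⊆ K ∩ G := fun w hw => ⟨hIK hw, hi₀m w hw⟩
  have hKG : IsCompact (K ∩ G) := hK.inter_right hGc
  have h1 := perim_mono hIc hI hIi hKG hIsub
  have hfr : frontier (K ∩ G) ⊆ (F ∩ G) ∪ ((fun s : ℝ => m + s • v) '' Icc s₁ s₂) := by
    intro x hx
    rcases frontier_inter_subset K G hx with hx1 | hx1
    · left
      rw [hGc.closure_eq] at hx1
      exact hx1
    · right
      rw [hK.isClosed.closure_eq] at hx1
      have hce : Continuous (fun y : ℂ => (inner ℝ e (y - m) : ℝ)) := by fun_prop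
      have h2 : inner ℝ e (x - m) = (0 : ℝ) :=
        frontier_le_subset_eq (f := fun y : ℂ => (inner ℝ e (y - m) : ℝ)) (g := fun _ => (0 : ℝ))
          hce continuous_const hx1.2
      have h3 := hexp (x - m)
      rw [h2, zero_smul, add_zero] at h3
      have h4 : m + (inner ℝ v (x - m) : ℝ) • v = x := by rw [← h3]; abel
      have h5 : (inner ℝ v (x - m) : ℝ) ∈ S := by
        show m + (inner ℝ v (x - m) : ℝ) • v ∈ K
        rw [h4]; exact hx1.1
      exact ⟨_, ⟨hs₁m h5, hs₂m h5⟩, h4⟩
  have hiso : Isometry (fun s : ℝ => m + s • v) := by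
    apply Isometry.of_dist_eq
    intro a b
    rw [dist_add_left, dist_eq_norm, ← sub_smul, norm_smul, hvn, mul_one, dist_eq_norm]
  have hchord : (μH[1] : Measure ℂ) ((fun s : ℝ => m + s • v) '' Icc s₁ s₂) = ENNReal.ofReal (s₂ - s₁) := by
    rw [hiso.hausdorffMeasure_image (Or.inl zero_le_one), hausdorffMeasure_real, Real.volume_Icc]
  have h2 : (μH[1] : Measure ℂ) (frontier I) ≤ μH[1] (F ∩ G) + ENNReal.ofReal (s₂ - s₁) := by
    refine h1.trans ((measure_mono hfr).trans ((measure_union_le _ _).trans ?_))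
    rw [hchord]
  have hfin : (μH[1] : Measure ℂ) (F ∩ G) ≠ ⊤ :=
    ne_top_of_le_ne_top (perim_ne_top hc hK hKi) (measure_mono inter_subset_left)
  calc (μH[1] : Measure ℂ) (frontier I) ≤ μH[1] (F ∩ G) + ENNReal.ofReal (s₂ - s₁) := h2
    _ < μH[1] (F ∩ G) + (ENNReal.ofReal N₁ + ENNReal.ofReal N₂) := by
        rw [← ENNReal.ofReal_add (by linarith) (by linarith)]
        refine (ENNReal.add_lt_add_iff_left hfin).mpr ?_
        rw [ENNReal.ofReal_lt_ofReal_iff (by linarith)]
        linarith
    _ ≤ μH[1] (F ∩ G) + μH[1] (F \ G) := by gcongr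
    _ = μH[1] F := measure_inter_add_sdiff _ hmeasG

end Pool.Agent.Run7.h658.PB
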