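import Pool.Agent.Run7.h658.PB.Strict

/-!
# Two convex bodies around the origin whose boundaries have the same radial length distribution

`subset_of_conic`: let `K`, `L` be compact convex sets of the plane with `0` in their interiors.  If
the boundary of `K` is not longer than the boundary of `L` in the open cone where `L` is cut by `K`,
then `K ⊆ L`.
-/

open MeasureTheory Metric Set
open scoped ENNReal

namespace Pool.Agent.Run7.h658.PB

open Pool.Agent.Helper533.ConvexObstacle

/-- If `∂K` is not longer than `∂L` in the cone in which `K` sticks out of `L`, then `K ⊆ L`. -/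
theorem subset_of_conic {K L : Set ℂ} (hKc : Convex ℝ K) (hK : IsCompact K) (hK0 : (0 : ℂ) ∈ interior K)
    (hLc : Convex ℝ L) (hL : IsCompact L) (hL0 : (0 : ℂ) ∈ interior L)
    (hm : (μH[1] : Measure ℂ) (frontier K ∩ {x | gauge K x < gauge L x}) ≤
      μH[1] (frontier L ∩ {x | gauge K x < gauge L x})) : K ⊆ L := by
  have hKn : K ∈ nhds (0 : ℂ) := mem_interior_iff_mem_nhds.mp hK0
  have hLn : L ∈ nhds (0 : ℂ) := mem_interior_iff_mem_nhds.mp hL0
  have hKg : Continuous (gauge K) := continuous_gauge hKc hKn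
  have hLg : Continuous (gauge L) := continuous_gauge hLc hLn
  set A : Set ℂ := {x | gauge K x < gauge L x} with hA
  have hAo : IsOpen A := isOpen_lt hKg hLg
  have hi : (0 : ℂ) ∈ interior (K ∩ L) := by
    rw [interior_inter]; exact ⟨hK0, hL0⟩
  -- the boundary of the intersection
  have hsub : (frontier K \ A) ∪ (frontier L ∩ A) ⊆ frontier (K ∩ L) := by
    have hcl : IsClosed (K ∩ L) := hK.isClosed.inter hL.isClosed
    rw [hcl.frontier_eq, interior_inter]
    rintro x (⟨hx, hxA⟩ | ⟨hx, hxA⟩)
    · have h1 : gauge K x = 1 := (gauge_eq_one_iff_mem_frontier hKc hKn).mpr hx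
      have h2 : gauge L x ≤ 1 := by
        rw [← h1]; exact not_lt.mp hxA
      have h3 : x ∈ L := by
        have := (gauge_le_one_iff_mem_closure hLc hLn).mp h2
        rwa [hL.isClosed.closure_eq] at this
      have h4 : x ∈ K ∧ x ∉ interior K := by
        rw [hK.isClosed.frontier_eq] at hx; exact hx
      exact ⟨⟨h4.1, h3⟩, fun h5 => h4.2 h5.1⟩
    · have h1 : gauge L x = 1 := (gauge_eq_one_iff_mem_frontier hLc hLn).mpr hx
      have h2 : gauge K x ≤ 1 := by
        rw [← h1]; exact le_of_lt hxA
      have h3 : x ∈ K := by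
        have := (gauge_le_one_iff_mem_closure hKc hKn).mp h2
        rwa [hK.isClosed.closure_eq] at this
      have h4 : x ∈ L ∧ x ∉ interior L := by
        rw [hL.isClosed.frontier_eq] at hx; exact hx
      exact ⟨⟨h3, h4.1⟩, fun h5 => h4.2 h5.2⟩
  by_contra hne
  have hne' : ¬ K ⊆ K ∩ L := fun h => hne fun x hx => (h hx).2
  have h1 := strict_perim (hKc.inter hLc) (hK.inter hL) ⟨0, hi⟩ hKc hK inter_subset_left hne'
  have h2 : (μH[1] : Measure ℂ) (frontier K) ≤ μH[1] (frontier (K ∩ L)) := by
    have hdisj : Disjoint (frontier K \ A) (frontier L ∩ A) :=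
      disjoint_sdiff_left.mono_right inter_subset_right
    calc (μH[1] : Measure ℂ) (frontier K)
        = μH[1] (frontier K ∩ A) + μH[1] (frontier K \ A) := (measure_inter_add_sdiff _ hAo.measurableSet).symm
      _ ≤ μH[1] (frontier L ∩ A) + μH[1] (frontier K \ A) := by gcongr
      _ = μH[1] (frontier K \ A) + μH[1] (frontier L ∩ A) := add_comm _ _
      _ = μH[1] ((frontier K \ A) ∪ (frontier L ∩ A)) :=
          (measure_union hdisj (isClosed_frontier.measurableSet.inter hAo.measurableSet)).symm
      _ ≤ μH[1] (frontier (K ∩ L)) := measure_mono hsub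
  exact absurd h1 (not_lt.mpr h2)

/-- a ray from the origin meets the boundary in at most one point -/
theorem ray_null {K : Set ℂ} (hKc : Convex ℝ K) (hK0 : (0 : ℂ) ∈ interior K) (θ : ℝ) :
    (μH[1] : Measure ℂ) (frontier K ∩ {x | Complex.arg x = θ}) = 0 := by
  have hKn : K ∈ nhds (0 : ℂ) := mem_interior_iff_mem_nhds.mp hK0
  have := Measure.nullSingletonClass_hausdorff ℂ (zero_lt_one : (0 : ℝ) < 1)
  have hss : (frontier K ∩ {x | Complex.arg x = θ}).Subsingleton := by
    rintro x ⟨hx, hxθ⟩ y ⟨hy, hyθ⟩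
    have h1 : gauge K x = 1 := (gauge_eq_one_iff_mem_frontier hKc hKn).mpr hx
    have h2 : gauge K y = 1 := (gauge_eq_one_iff_mem_frontier hKc hKn).mpr hy
    have hx0 : x ≠ 0 := by rintro rfl; simp at h1
    have hy0 : y ≠ 0 := by rintro rfl; simp at h2
    have harg : Complex.arg x = Complex.arg y := by rw [hxθ, hyθ]
    rw [Complex.arg_eq_arg_iff hx0 hy0] at harg
    have h3 : y = (‖y‖ / ‖x‖ : ℝ) • x := by
      rw [Complex.real_smul, Complex.ofReal_div]; exact harg.symm
    have h4 : (0 : ℝ) ≤ ‖y‖ / ‖x‖ := by positivity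
    have h5 : gauge K y = (‖y‖ / ‖x‖ : ℝ) • gauge K x := by
      conv_lhs => rw [h3]
      exact gauge_smul_of_nonneg h4 x
    rw [h1, h2, smul_eq_mul, mul_one] at h5
    rw [h3, ← h5, one_smul]
  exact hss.measure_zero _

end Pool.Agent.Run7.h658.PB
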